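import Pool.Agent.L0h52.VZ.Pts

/-! Polynomials which vanish on the graphs of the iterates. -/

set_option autoImplicit false

namespace Pool.Agent.L0h52.VZ

open Polynomial

section pq
variable (k : Type) [Field k]

/-- numerator and denominator of the iterates of `t (2 - t)³ / (2 t - 1)³` -/
noncomputable def pq : ℕ → k[X] × k[X]
  | 0 => (X, 1)
  | (j + 1) => ((pq j).1 * (2 * (pq j).2 - (pq j).1) ^ 3, (pq j).2 * (2 * (pq j).1 - (pq j).2) ^ 3)

variable [CharZero k]

theorem pq_deg (j : ℕ) : (pq k j).1.natDegree = 4 ^ j ∧ (pq k j).2.natDegree < 4 ^ j ∧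
    (pq k j).2 ≠ 0 ∧ IsCoprime (pq k j).1 (pq k j).2 := by
  induction j with
  | zero =>
    refine ⟨by simp [pq], by simp [pq], by simp [pq], ?_⟩
    simp only [pq]
    exact isCoprime_one_right
  | succ j ih =>
    obtain ⟨h1, h2, h3, h4⟩ := ih
    set p := (pq k j).1 with hp
    set q := (pq k j).2 with hq
    have hpos : 0 < 4 ^ j := by positivity
    have h20 : (2 : k[X]) = C 2 := rfl
    have d2q : (2 * q).natDegree = q.natDegree := by
      rw [h20, natDegree_C_mul (two_ne_zero)]
    have d2p : (2 * p).natDegree = p.natDegree := by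
      rw [h20, natDegree_C_mul (two_ne_zero)]
    have e1 : (2 * q - p).natDegree = 4 ^ j := by
      rw [natDegree_sub_eq_right_of_natDegree_lt (by rw [d2q, h1]; exact h2), h1]
    have e2 : (2 * p - q).natDegree = 4 ^ j := by
      rw [natDegree_sub_eq_left_of_natDegree_lt (by rw [d2p, h1]; exact h2), d2p, h1]
    have n1 : 2 * q - p ≠ 0 := by
      intro h
      rw [h, natDegree_zero] at e1
      omega
    have n2 : 2 * p - q ≠ 0 := by
      intro h
      rw [h, natDegree_zero] at e2
      omega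
    have n3 : p ≠ 0 := by
      intro h
      rw [h, natDegree_zero] at h1
      omega
    have d1 : (pq k (j + 1)).1 = p * (2 * q - p) ^ 3 := rfl
    have d2 : (pq k (j + 1)).2 = q * (2 * p - q) ^ 3 := rfl
    refine ⟨?_, ?_, ?_, ?_⟩
    · rw [d1, natDegree_mul n3 (pow_ne_zero _ n1), natDegree_pow, e1, h1, pow_succ]
      ring
    · rw [d2, natDegree_mul h3 (pow_ne_zero _ n2), natDegree_pow, e2, pow_succ]
      omega
    · rw [d2]
      exact mul_ne_zero h3 (pow_ne_zero _ n2)
    · rw [d1, d2]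
      have c3 : IsUnit (3 : k[X]) := by
        have : (3 : k[X]) = C 3 := rfl
        rw [this, isUnit_C]
        exact isUnit_iff_ne_zero.2 three_ne_zero
      obtain ⟨a, b, hab⟩ := h4
      have hc : IsCoprime p q := ⟨a, b, hab⟩
      -- `p` and `2 p - q`
      have c1 : IsCoprime p (2 * p - q) := by
        have : IsCoprime p (-q + p * 2) := (IsCoprime.add_mul_left_right_iff).2 hc.neg_right
        rwa [show -q + p * 2 = 2 * p - q by ring] at this
      have c2 : IsCoprime (2 * q - p) q := by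
        have : IsCoprime (-p + q * 2) q := (IsCoprime.add_mul_left_left_iff).2 hc.neg_left
        rwa [show -p + q * 2 = 2 * q - p by ring] at this
      have c4 : IsCoprime (2 * q - p) (2 * p - q) := by
        obtain ⟨u, hu⟩ := c3
        have hu' : (↑u⁻¹ : k[X]) * 3 = 1 := by rw [← hu, Units.inv_mul]
        refine ⟨↑u⁻¹ * (a + 2 * b), ↑u⁻¹ * (2 * a + b), ?_⟩
        calc ↑u⁻¹ * (a + 2 * b) * (2 * q - p) + ↑u⁻¹ * (2 * a + b) * (2 * p - q)
            = (↑u⁻¹ * 3) * (a * p + b * q) := by ring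
          _ = 1 := by rw [hu', hab, mul_one]
      exact ((hc.mul_right c1.pow_right).mul_left (c2.pow_left.mul_right (c4.pow)))

/-- the equation of the graph -/
noncomputable def gr (j : ℕ) : k[X][X] := C (pq k j).2 * X - C (pq k j).1

theorem gr_primitive (j : ℕ) : (gr k j).IsPrimitive := by
  obtain ⟨-, -, -, a, b, hab⟩ := pq_deg k j
  intro r hr
  rw [C_dvd_iff_dvd_coeff] at hr
  have h0 := hr 0
  have h1 := hr 1
  unfold gr at h0 h1
  simp only [coeff_sub, coeff_C_mul, coeff_X_zero, mul_zero, coeff_C_zero, zero_sub, dvd_neg,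
    coeff_X_one, mul_one, coeff_C_succ, sub_zero] at h0 h1
  refine isUnit_of_dvd_one ?_
  rw [← hab]
  exact dvd_add (h0.mul_left a) (h1.mul_left b)

theorem pq_ne {i j : ℕ} (h : i < j) : (pq k i).2 * (pq k j).1 ≠ (pq k i).1 * (pq k j).2 := by
  intro he
  obtain ⟨a1, a2, a3, a4⟩ := pq_deg k i
  obtain ⟨b1, b2, b3, b4⟩ := pq_deg k j
  have h1 : (pq k j).1 ∣ (pq k i).1 * (pq k j).2 := ⟨(pq k i).2, by rw [← he]; ring⟩
  have h2 := b4.dvd_of_dvd_mul_right h1
  have h3 : (pq k i).1 ≠ 0 := by
    intro h0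
    rw [h0, natDegree_zero] at a1
    have : 0 < 4 ^ i := by positivity
    omega
  have h4 := natDegree_le_of_dvd h2 h3
  rw [a1, b1] at h4
  have := Nat.pow_lt_pow_right (show 1 < 4 by norm_num) h
  omega

end pq

end Pool.Agent.L0h52.VZ
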