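import Pool.Agent.L0h52.VZ.Rel
import Pool.Agent.Y733.VR.Final2

/-! Vojta's inequality on the product of two Fermat curves and the exceptional set. -/

set_option autoImplicit false

namespace Pool.Agent.L0h52.VZ

open Polynomial Module NumberField Height
open Pool.Agent.Y733.VR

theorem aeval_symm {k : Type} [Field k] (x y : k) (G : MvPolynomial (Fin 2) k) :
    ((Bivariate.equivMvPolynomial k).symm G).evalEval x y = MvPolynomial.aeval ![x, y] G := by
  have h : ((aevalAeval (R := k) x y).comp (Bivariate.equivMvPolynomial k).symm.toAlgHom) =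
      MvPolynomial.aeval ![x, y] := by
    refine MvPolynomial.algHom_ext fun i => ?_
    fin_cases i
    · simp
    · simp
  have h2 := DFunLike.congr_fun h G
  rw [← h2, ← coe_aevalAeval_eq_evalEval]
  rfl

theorem natDegree_le_degreeOf {k : Type} [Field k] (G : MvPolynomial (Fin 2) k) :
    (MvPolynomial.aeval ![X, 0] G : k[X]).natDegree ≤ G.degreeOf 0 := by
  rw [MvPolynomial.aeval_def, MvPolynomial.eval₂_eq']
  refine natDegree_sum_le_of_forall_le _ _ fun m hm => ?_
  rw [Fin.prod_univ_two]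
  show (C (G.coeff m) * (X ^ m 0 * 0 ^ m 1)).natDegree ≤ _
  refine (natDegree_C_mul_le _ _).trans ?_
  have h1 : m 0 ≤ G.degreeOf 0 := MvPolynomial.monomial_le_degreeOf 0 hm
  rcases Nat.eq_zero_or_pos (m 1) with h | h
  · rw [h, pow_zero, mul_one, natDegree_X_pow]
    exact h1
  · rw [zero_pow h.ne', mul_zero, natDegree_zero]
    exact Nat.zero_le _

section
variable (k : Type) [Field k] [CharZero k]

theorem degreeOf_gr (j : ℕ) : 4 ^ j ≤ (Bivariate.equivMvPolynomial k (gr k j)).degreeOf 0 := by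
  refine le_trans (le_of_eq ?_) (natDegree_le_degreeOf _)
  rw [← (pq_deg k j).1]
  have h : ((MvPolynomial.aeval ![X, 0] : MvPolynomial (Fin 2) k →ₐ[k] k[X]).comp
      (Bivariate.equivMvPolynomial k).toAlgHom) = aevalAeval (R := k) X 0 := by
    refine Polynomial.algHom_ext' (AlgHom.ext fun p => ?_) ?_
    · induction p using Polynomial.induction_on' with
      | add p q hp hq => rw [map_add, map_add, hp, hq]
      | monomial n a =>
        simp only [AlgHom.comp_apply]
        rw [← C_mul_X_pow_eq_monomial]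
        simp [Polynomial.CAlgHom]
    · simp
  have h2 := DFunLike.congr_fun h (gr k j)
  have h3 : MvPolynomial.aeval ![X, 0] (Bivariate.equivMvPolynomial k (gr k j)) =
      aevalAeval (R := k) X 0 (gr k j) := h2
  rw [h3]
  unfold gr
  rw [map_sub, map_mul, aevalAeval_C, aevalAeval_C]
  simp

theorem exists_nonroot (h : k[X]) (h0 : h ≠ 0) : ∃ i1, ∀ i ≥ i1, eval (tk k i) h ≠ 0 := by
  classical
  obtain ⟨i1, hi1⟩ : ∃ i1 : ℕ, ∀ s ∈ h.roots.toFinset, ∀ i ≥ i1, tk k i ≠ s := by
    induction h.roots.toFinset using Finset.induction_on with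
    | empty => exact ⟨0, by simp⟩
    | insert a s _ ih =>
      obtain ⟨i1, hi1⟩ := ih
      by_cases ha : ∃ i', tk k i' = a
      · obtain ⟨i', hi'⟩ := ha
        obtain ⟨n, hn⟩ := exists_nat_gt (hh (tq i'))
        refine ⟨max i1 n, fun s' hs' i hi => ?_⟩
        rcases Finset.mem_insert.1 hs' with rfl | hs'
        · intro he
          have h1 : tq i = tq i' := by
            rw [← hi'] at he
            unfold tk at he
            exact_mod_cast he
          have h2 := hh_ge i
          rw [h1] at h2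
          have h3 : (1 : ℝ) ≤ Real.log 8 := by
            rw [Real.le_log_iff_exp_le (by norm_num)]
            have := Real.exp_one_lt_d9
            linarith
          have h4 : (n : ℝ) ≤ i := by
            have : n ≤ i := le_trans (le_max_right _ _) hi
            exact_mod_cast this
          have h5 : (i : ℝ) * 1 ≤ i * Real.log 8 :=
            mul_le_mul_of_nonneg_left h3 (Nat.cast_nonneg _)
          linarith
        · exact hi1 s' hs' i (le_trans (le_max_left _ _) hi)
      · refine ⟨i1, fun s' hs' i hi => ?_⟩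
        rcases Finset.mem_insert.1 hs' with rfl | hs'
        · exact fun he => ha ⟨i, he⟩
        · exact hi1 s' hs' i hi
  refine ⟨i1, fun i hi he => hi1 _ ?_ i hi rfl⟩
  rw [Multiset.mem_toFinset, mem_roots h0]
  exact he

/-- a polynomial which vanishes on many graphs -/
theorem prod_gr_dvd (P : k[X][X]) (J : ℕ)
    (h : ∀ j < J, ∃ i0, ∀ i ≥ i0, P.evalEval (tk k i) (tk k (i + j)) = 0) :
    ∏ j ∈ Finset.range J, gr k j ∣ P := by
  induction J with
  | zero => simp
  | succ J ih =>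
    obtain ⟨Q, hQ⟩ := ih fun j hj => h j (by omega)
    obtain ⟨i0, hi0⟩ := h J (by omega)
    rw [Finset.prod_range_succ]
    have h1 : ∃ i1, ∀ i ≥ i1, (∏ j ∈ Finset.range J, gr k j).evalEval (tk k i) (tk k (i + J)) ≠ 0 := by
      obtain ⟨i1, hi1⟩ := exists_nonroot k
        (∏ j ∈ Finset.range J, ((pq k j).2 * (pq k J).1 - (pq k j).1 * (pq k J).2))
        (Finset.prod_ne_zero_iff.2 fun j hj => sub_ne_zero.2 (pq_ne k (Finset.mem_range.1 hj)))
      refine ⟨i1, fun i hi => ?_⟩
      have h2 := hi1 i hi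
      rw [eval_prod] at h2
      rw [evalEval_prod]
      refine Finset.prod_ne_zero_iff.2 fun j hj h3 => ?_
      have h4 := Finset.prod_ne_zero_iff.1 h2 j hj
      apply h4
      have h5 := gr_evalEval k i j J h3
      rw [eval_sub, eval_mul, eval_mul, (rel k i j).2, (rel k i J).2, h5]
      ring
    obtain ⟨i1, hi1⟩ := h1
    have h2 : gr k J ∣ Q := by
      refine gr_dvd_of_zeros k (max i0 i1) J Q fun i hi => ?_
      have h3 := hi0 i (le_trans (le_max_left _ _) hi)
      have h4 := hi1 i (le_trans (le_max_right _ _) hi)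
      rw [hQ, evalEval_mul] at h3
      exact (mul_eq_zero.1 h3).resolve_left h4
    rw [hQ]
    exact mul_dvd_mul_left _ h2

theorem degreeOf_ge (G : MvPolynomial (Fin 2) k) (hG : G ≠ 0) (J : ℕ)
    (h : ∀ j < J, ∃ i0, ∀ i ≥ i0, MvPolynomial.aeval ![tk k i, tk k (i + j)] G = 0) :
    4 ^ J ≤ 3 * G.degreeOf 0 + 1 := by
  obtain ⟨Q, hQ⟩ := prod_gr_dvd k ((Bivariate.equivMvPolynomial k).symm G) J fun j hj => by
    obtain ⟨i0, hi0⟩ := h j hj
    exact ⟨i0, fun i hi => by rw [aeval_symm]; exact hi0 i hi⟩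
  have h1 : G = (∏ j ∈ Finset.range J, Bivariate.equivMvPolynomial k (gr k j)) *
      Bivariate.equivMvPolynomial k Q := by
    rw [← map_prod, ← map_mul, ← hQ, AlgEquiv.apply_symm_apply]
  have hne : ∀ j, Bivariate.equivMvPolynomial k (gr k j) ≠ 0 := by
    intro j
    rw [Ne, EmbeddingLike.map_eq_zero_iff]
    exact (gr_primitive k j).ne_zero
  have hQ0 : Bivariate.equivMvPolynomial k Q ≠ 0 := by
    intro h0
    rw [h0, mul_zero] at h1
    exact hG h1
  rw [h1, MvPolynomial.degreeOf_mul_eq (Finset.prod_ne_zero_iff.2 fun j _ => hne j) hQ0,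
    MvPolynomial.degreeOf_prod_eq _ _ fun j _ => hne j]
  have h2 : ∑ j ∈ Finset.range J, 4 ^ j ≤
      ∑ j ∈ Finset.range J, (Bivariate.equivMvPolynomial k (gr k j)).degreeOf 0 :=
    Finset.sum_le_sum fun j _ => degreeOf_gr k j
  have h3 : 3 * ∑ j ∈ Finset.range J, 4 ^ j + 1 = 4 ^ J := by
    clear h2 h1 hQ h
    induction J with
    | zero => simp
    | succ J ih =>
      rw [Finset.sum_range_succ, mul_add, pow_succ]
      omega
  omega

end

/-- the inequality forces the polynomial to vanish at far points of the sequence -/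
theorem vanish (k : Type) [Field k] [NumberField k] (M : ℕ) (hM : M ≠ 0)
    (G : MvPolynomial (Fin 2) k) (ε C : ℝ) (hε : 0 < ε) (d : ℕ) (hd : 3 * M ^ 7 ≤ d)
    (hV : ∀ (F : Type) [Field F] [NumberField F] [Algebra k F] (a b : Fin 2 → F),
      (∀ i, a i ^ (3 * M) + b i ^ (3 * M) = 1) → finrank k F ≤ d →
      IntermediateField.adjoin k (Set.range a ∪ Set.range b) = ⊤ →
      MvPolynomial.aeval (fun i => a i ^ (3 * M)) G ≠ 0 →
      ((3 * M : ℕ) - 3) * ((∑ i, logHeight ![a i, b i, 1]) / finrank k F) ≤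
        1 * (Real.log |(discr F : ℝ)| / finrank k F - Real.log |(discr k : ℝ)|) +
          ε * ((∑ i, logHeight ![a i, b i, 1]) / finrank k F) + C)
    (j : ℕ) (hj : ε * (4 ^ j + 1) < (3 * M : ℕ) - 3) :
    ∃ i0, ∀ i ≥ i0, MvPolynomial.aeval ![tk k i, tk k (i + j)] G = 0 := by
  obtain ⟨A, hA⟩ := exists_pt k M hM
  set κ : ℝ := (finrank ℚ k : ℝ) with hκ
  have hκ0 : 0 < κ := deg_pos
  set N : ℝ := ((3 * M : ℕ) : ℝ) with hN
  have hM0 : (0 : ℝ) < M := by exact_mod_cast Nat.pos_of_ne_zero hM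
  have hN0 : 0 < N := by
    rw [hN]
    push_cast
    linarith
  have hpos : 0 < N - 3 - ε * (4 ^ j + 1) := by linarith
  set R : ℝ := N * (A - ld k + C / κ) + 2 * (ε * 4 ^ j) with hR
  obtain ⟨i0, hi0⟩ := exists_nat_gt (R / (N - 3 - ε * (4 ^ j + 1)))
  refine ⟨i0, fun i hi => ?_⟩
  by_contra hne
  obtain ⟨F, iF, iN, iA, a, b, h1, h2, h3, h4, h5, h6⟩ := hA i j
  have h7 : MvPolynomial.aeval (fun i => a i ^ (3 * M)) G ≠ 0 := by
    have e : (fun m => a m ^ (3 * M)) = fun m => algebraMap k F (![tk k i, tk k (i + j)] m) := by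
      funext m
      fin_cases m
      · show a 0 ^ (3 * M) = algebraMap k F (tk k i)
        rw [h2]
        unfold tk
        rw [map_ratCast, eq_ratCast]
      · show a 1 ^ (3 * M) = algebraMap k F (tk k (i + j))
        rw [h3]
        unfold tk
        rw [map_ratCast, eq_ratCast]
    rw [e]
    have e2 : MvPolynomial.aeval (fun m => algebraMap k F (![tk k i, tk k (i + j)] m)) G =
        algebraMap k F (MvPolynomial.aeval ![tk k i, tk k (i + j)] G) := by
      exact MvPolynomial.aeval_algebraMap_apply F ![tk k i, tk k (i + j)] G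
    rw [e2]
    exact (_root_.map_ne_zero _).2 hne
  have h8 := hV F a b h1 (h4.trans hd) h5 h7
  have hf0 : (0 : ℝ) < finrank k F := by
    have : FiniteDimensional k F := inferInstance
    exact_mod_cast finrank_pos
  have hdf : (finrank ℚ F : ℝ) = κ * finrank k F := finrank_tower k F
  set H : ℝ := (∑ i, logHeight ![a i, b i, 1]) / finrank k F with hHdef
  have e1 : ∀ (m : Fin 2) (t : ℚ), a m ^ (3 * M) = algebraMap ℚ F t →
      hh t * (κ * finrank k F) ≤ N * logHeight ![a m, b m, 1] := by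
    intro m t ht
    have e3 : hh (a m ^ (3 * M)) * (κ * finrank k F) = N * logHeight₁ (a m) := by
      rw [← hdf, ← hh_mul_deg, logHeight₁_pow]
    rw [ht, hh_ext] at e3
    rw [e3]
    exact mul_le_mul_of_nonneg_left (logHeight_fermat_ge _ _) hN0.le
  have hH : κ * (hh (tq i) + hh (tq (i + j))) ≤ N * H := by
    have e2 := e1 0 _ h2
    have e3 := e1 1 _ h3
    rw [hHdef, mul_div_assoc', le_div_iff₀ hf0, Fin.sum_univ_two]
    linarith
  have hD : Real.log |(discr F : ℝ)| / finrank k F - Real.log |(discr k : ℝ)| =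
      κ * (ld F - ld k) := by
    unfold ld
    rw [hdf, ← hκ]
    field_simp
  rw [hD, one_mul] at h8
  have hε' : 0 < N - 3 - ε := by
    have : 0 < ε * 4 ^ j := by positivity
    linarith
  have f1 : (N - 3 - ε) * (κ * (hh (tq i) + hh (tq (i + j)))) ≤ (N - 3 - ε) * (N * H) :=
    mul_le_mul_of_nonneg_left hH hε'.le
  have f2 : (N - 3 - ε) * (N * H) ≤ N * (κ * (ld F - ld k) + C) := by
    have := mul_le_mul_of_nonneg_left (show (N - 3 - ε) * H ≤ κ * (ld F - ld k) + C by linarith)
      hN0.le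
    linarith
  have f3 : N * (κ * (ld F - ld k) + C) ≤
      κ * (N * (A - ld k + C / κ) + (N - 3) * hh (tq (i + j))) := by
    have e4 : N * (1 - 1 / (M : ℝ)) = N - 3 := by
      rw [hN]
      push_cast
      field_simp
    have e5 : κ * (N * (A - ld k + C / κ) + (N - 3) * hh (tq (i + j))) =
        N * (κ * (A + (1 - 1 / (M : ℝ)) * hh (tq (i + j)) - ld k) + C) := by
      rw [← e4]
      field_simp
      ring
    rw [e5]
    refine mul_le_mul_of_nonneg_left ?_ hN0.le
    have := mul_le_mul_of_nonneg_left h6 hκ0.le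
    linarith
  have f4 : (N - 3 - ε) * (hh (tq i) + hh (tq (i + j))) ≤
      N * (A - ld k + C / κ) + (N - 3) * hh (tq (i + j)) := by
    refine le_of_mul_le_mul_left ?_ hκ0
    linarith
  have f5 := mul_le_mul_of_nonneg_left (hh_add_le' i j) hε.le
  have f6 : (N - 3 - ε * (4 ^ j + 1)) * hh (tq i) ≤ R := by
    rw [hR]
    linarith
  have f7 : (i : ℝ) ≤ hh (tq i) := by
    have h3 : (1 : ℝ) ≤ Real.log 8 := by
      rw [Real.le_log_iff_exp_le (by norm_num)]
      have := Real.exp_one_lt_d9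
      linarith
    have h5 : (i : ℝ) * 1 ≤ i * Real.log 8 := mul_le_mul_of_nonneg_left h3 (Nat.cast_nonneg _)
    linarith [hh_ge i]
  rw [div_lt_iff₀ hpos] at hi0
  have f8 : (i0 : ℝ) ≤ i := by exact_mod_cast hi
  have f9 := mul_le_mul_of_nonneg_left (f8.trans f7) hpos.le
  linarith

theorem main0 (k : Type) [Field k] [NumberField k] (M : ℕ) (hM : M ≠ 0)
    (G : MvPolynomial (Fin 2) k) (hG : G ≠ 0) (ε C : ℝ) (hε : 0 < ε) (d : ℕ) (hd : 3 * M ^ 7 ≤ d)
    (hV : ∀ (F : Type) [Field F] [NumberField F] [Algebra k F] (a b : Fin 2 → F),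
      (∀ i, a i ^ (3 * M) + b i ^ (3 * M) = 1) → finrank k F ≤ d →
      IntermediateField.adjoin k (Set.range a ∪ Set.range b) = ⊤ →
      MvPolynomial.aeval (fun i => a i ^ (3 * M)) G ≠ 0 →
      ((3 * M : ℕ) - 3) * ((∑ i, logHeight ![a i, b i, 1]) / finrank k F) ≤
        1 * (Real.log |(discr F : ℝ)| / finrank k F - Real.log |(discr k : ℝ)|) +
          ε * ((∑ i, logHeight ![a i, b i, 1]) / finrank k F) + C) :
    ((3 * M : ℕ) : ℝ) - 3 ≤ ε * (3 * G.degreeOf 0 + 2) := by
  classical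
  have hex : ∃ J : ℕ, ((3 * M : ℕ) : ℝ) - 3 ≤ ε * (4 ^ J + 1) := by
    obtain ⟨J, hJ⟩ := pow_unbounded_of_one_lt ((((3 * M : ℕ) : ℝ) - 3) / ε) (show (1 : ℝ) < 4 by norm_num)
    rw [div_lt_iff₀ hε] at hJ
    exact ⟨J, by linarith⟩
  have h1 := Nat.find_spec hex
  have h2 : ∀ j < Nat.find hex, ε * (4 ^ j + 1) < ((3 * M : ℕ) : ℝ) - 3 := fun j hj =>
    not_le.1 (Nat.find_min hex hj)
  set J := Nat.find hex
  have h3 := degreeOf_ge k G hG J fun j hj => vanish k M hM G ε C hε d hd hV j (h2 j hj)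
  have h4 : (4 : ℝ) ^ J ≤ 3 * G.degreeOf 0 + 1 := by exact_mod_cast h3
  refine h1.trans (mul_le_mul_of_nonneg_left (by linarith) hε.le)

theorem main (k : Type) [Field k] [NumberField k] (M : ℕ) (hM : M ≠ 0)
    (G : MvPolynomial (Fin 2) k) (hG : G ≠ 0) (ε C : ℝ) (hε : 0 < ε) (d : ℕ) (hd : 3 * M ^ 7 ≤ d)
    (hV : ∀ (F : Type) [Field F] [NumberField F] [Algebra k F] (a b : Fin 2 → F),
      (∀ i, a i ^ (3 * M) + b i ^ (3 * M) = 1) → finrank k F ≤ d →
      IntermediateField.adjoin k (Set.range a ∪ Set.range b) = ⊤ →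
      MvPolynomial.aeval (fun i => a i ^ (3 * M)) G ≠ 0 →
      ((3 * M : ℕ) - 3) * ((∑ i, logHeight ![a i, b i, 1]) / finrank k F) ≤
        1 * (Real.log |(discr F : ℝ)| / finrank k F - Real.log |(discr k : ℝ)|) +
          ε * ((∑ i, logHeight ![a i, b i, 1]) / finrank k F) + C) (m : Fin 2) :
    ((3 * M : ℕ) : ℝ) - 3 ≤ ε * (3 * G.degreeOf m + 2) := by
  obtain rfl | rfl : m = 0 ∨ m = 1 := by
    fin_cases m
    · exact Or.inl rfl
    · exact Or.inr rfl
  · exact main0 k M hM G hG ε C hε d hd hV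
  · have hinj : Function.Injective (Equiv.swap (0 : Fin 2) 1) := (Equiv.swap 0 1).injective
    have h1 := main0 k M hM (MvPolynomial.rename (Equiv.swap (0 : Fin 2) 1) G)
      ((MvPolynomial.rename_injective _ hinj).ne_iff' (map_zero _) |>.2 hG) ε C hε d hd ?_
    · have h2 : (MvPolynomial.rename (Equiv.swap (0 : Fin 2) 1) G).degreeOf
          (Equiv.swap (0 : Fin 2) 1 1) = G.degreeOf 1 :=
        MvPolynomial.degreeOf_rename_of_injective hinj 1
      rw [Equiv.swap_apply_right] at h2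
      rwa [h2] at h1
    · intro F _ _ _ a b c1 c2 c3 c4
      have hr : ∀ f : Fin 2 → F, Set.range (f ∘ Equiv.swap (0 : Fin 2) 1) = Set.range f :=
        fun f => (Equiv.swap (0 : Fin 2) 1).surjective.range_comp f
      have c5 := hV F (a ∘ Equiv.swap (0 : Fin 2) 1) (b ∘ Equiv.swap (0 : Fin 2) 1)
        (fun i => c1 _) c2 (by rw [hr, hr]; exact c3) (by
          rw [MvPolynomial.aeval_rename] at c4
          exact c4)
      have hs : ∑ i, logHeight ![(a ∘ Equiv.swap (0 : Fin 2) 1) i, (b ∘ Equiv.swap (0 : Fin 2) 1) i, 1]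
          = ∑ i, logHeight ![a i, b i, 1] :=
        Equiv.sum_comp (Equiv.swap (0 : Fin 2) 1) fun i => logHeight ![a i, b i, 1]
      rw [hs] at c5
      exact c5

end Pool.Agent.L0h52.VZ
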