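import Pool.Agent.L0h52.VE.Sq

/-! Extensions by roots of integral elements. -/

set_option autoImplicit false

namespace Pool.Agent.L0h52.VZ

open NumberField Module Polynomial IntermediateField
open Pool.Agent.Y733.VR
open Pool.Agent.L0h52.VE (ln_ext)

theorem ln_pow {L : Type} [Field L] [NumberField L] (x : L) (hx : x ≠ 0) (n : ℕ) :
    ln (x ^ n) = n * ln x := by
  induction n with
  | zero =>
    rw [pow_zero]
    have := ln_natCast (K := L) 1 one_ne_zero
    push_cast at this
    rw [this]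
    simp
  | succ n ih =>
    rw [pow_succ, ln_mul _ _ (pow_ne_zero _ hx) hx, ih]
    push_cast
    ring

/-- the discriminant of the extension by a root of an integral element -/
theorem ld_root_int (N : ℕ) (hN : N ≠ 0) (L M : Type) [Field L] [NumberField L] [Field M]
    [NumberField M] [Algebra L M] {a : L} (ha0 : a ≠ 0) (hint : IsIntegral ℤ a)
    {b : M} (hb : b ^ N = algebraMap L M a) (htop : L⟮b⟯ = ⊤) :
    ld M ≤ ld L + (Real.log N + (1 - 1 / N) * ln a) := by
  have ha' : algebraMap L M a ≠ 0 := by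
    rwa [Ne, FaithfulSMul.algebraMap_eq_zero_iff]
  have hb0 : b ≠ 0 := by
    rintro rfl
    apply ha'
    rw [← hb, zero_pow hN]
  have hbint : IsIntegral ℤ b := IsIntegral.of_pow (n := N) (Nat.pos_of_ne_zero hN) (by
    rw [hb]; exact isIntegral_map _ hint)
  set β : 𝓞 M := ⟨b, hbint⟩ with hβ
  set α : 𝓞 L := ⟨a, hint⟩ with hα
  have hroot : aeval β (X ^ N - C α : (𝓞 L)[X]) = 0 := by
    apply RingOfIntegers.coe_injective
    rw [map_sub, map_pow, aeval_X, aeval_C, map_sub, map_pow, map_zero]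
    have : algebraMap (𝓞 M) M (algebraMap (𝓞 L) (𝓞 M) α) = algebraMap L M a := rfl
    rw [this, ← hb]
    exact sub_self _
  have hder : aeval β (derivative (X ^ N - C α : (𝓞 L)[X])) = (N : 𝓞 M) * β ^ (N - 1) := by
    rw [derivative_sub, derivative_C, sub_zero, derivative_X_pow, map_mul, aeval_C, map_pow,
      aeval_X, map_natCast]
  have hcoe : (((N : 𝓞 M) * β ^ (N - 1) : 𝓞 M) : M) = (N : M) * b ^ (N - 1) := by
    push_cast
    rfl
  have hNM : (N : M) ≠ 0 := Nat.cast_ne_zero.2 hN
  have hne : (N : M) * b ^ (N - 1) ≠ 0 := mul_ne_zero hNM (pow_ne_zero _ hb0)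
  have h := ld_le L M β htop (X ^ N - C α) hroot (by
    rw [hder]
    intro h0
    apply hne
    rw [← hcoe, h0]
    rfl)
  rw [hder, hcoe] at h
  have h5 : ln ((N : M) * b ^ (N - 1)) = Real.log N + (1 - 1 / N) * ln a := by
    rw [ln_mul _ _ hNM (pow_ne_zero _ hb0), ln_natCast N hN, ln_pow _ hb0]
    have e1 : (N : ℝ) * ln b = ln a := by
      rw [← ln_pow _ hb0, hb, ln_ext]
    have hN0 : (N : ℝ) ≠ 0 := Nat.cast_ne_zero.2 hN
    rw [← e1, Nat.cast_sub (Nat.one_le_iff_ne_zero.2 hN)]
    field_simp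
    push_cast
    ring
  unfold ln at h5
  unfold ln
  linarith

/-- adjoining roots of integral elements -/
theorem tower_roots (s : ℕ) (N : ℕ → ℕ) (hN : ∀ j, N j ≠ 0) (L : Type) [Field L] [NumberField L]
    (a : ℕ → L) (ha : ∀ j, a j ≠ 0 ∧ IsIntegral ℤ (a j)) :
    ∃ (M : Type) (_ : Field M) (_ : NumberField M) (_ : Algebra L M) (b : ℕ → M),
      (∀ j < s, b j ^ N j = algebraMap L M (a j)) ∧ finrank L M ≤ ∏ j ∈ Finset.range s, N j ∧
      ld M ≤ ld L + ∑ j ∈ Finset.range s, (Real.log (N j) + (1 - 1 / N j) * ln (a j)) := by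
  induction s with
  | zero =>
    refine ⟨L, inferInstance, inferInstance, inferInstance, fun _ => 0,
      fun j hj => absurd hj (Nat.not_lt_zero j), ?_, ?_⟩
    · rw [finrank_self, Finset.prod_range_zero]
    · simp
  | succ s ih =>
    obtain ⟨M₁, iF, iN, iA, b, h2, h3, h4⟩ := ih
    obtain ⟨σ⟩ : Nonempty (M₁ →+* ℂ) := inferInstance
    obtain ⟨z, hz⟩ := IsAlgClosed.exists_pow_nat_eq (σ (algebraMap L M₁ (a s)))
      (Nat.pos_of_ne_zero (hN s))
    obtain ⟨M, jF, jN, jA, τ', c, g1, g2, g3, g4⟩ := ext_root (N s) (hN s) M₁ σ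
      (algebraMap L M₁ (a s)) z hz
    let _ : Algebra L M := ((algebraMap M₁ M).comp (algebraMap L M₁)).toAlgebra
    have hst : IsScalarTower L M₁ M := IsScalarTower.of_algebraMap_eq (fun x => rfl)
    refine ⟨M, jF, jN, inferInstance, fun i => if i < s then algebraMap M₁ M (b i) else c,
      ?_, ?_, ?_⟩
    · intro j hj
      by_cases hjs : j < s
      · simp only [if_pos hjs]
        rw [← map_pow, h2 j hjs]
        rfl
      · have : j = s := by omega
        subst this
        simp only [if_neg hjs]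
        rw [g2]
        rfl
    · rw [← finrank_mul_finrank L M₁ M, Finset.prod_range_succ]
      exact Nat.mul_le_mul h3 g4
    · obtain ⟨a1, a2⟩ := ha s
      have h8 := ld_root_int (N s) (hN s) M₁ M (a := algebraMap L M₁ (a s))
        (by rwa [Ne, FaithfulSMul.algebraMap_eq_zero_iff]) (isIntegral_map _ a2) g2 g3
      rw [ln_ext] at h8
      rw [Finset.sum_range_succ]
      linarith

end Pool.Agent.L0h52.VZ
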