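import Pool.Agent.L0h52.VZ.Seq
import Pool.Agent.L0h52.VZ.Root

/-! Points of products of two Fermat curves with small discriminants. -/

set_option autoImplicit false

namespace Pool.Agent.L0h52.VZ

open NumberField Module Height
open Pool.Agent.Y733.VR

theorem exists_cof (i j : ℕ) : ∃ u v w : ℤ, (itr (i + j)).1 = (itr i).1 * u ∧
    (itr (i + j)).2.1 = (itr i).2.1 * v ∧ (itr (i + j)).2.2 = (itr i).2.2 * w := by
  induction j with
  | zero => exact ⟨1, 1, 1, by simp, by simp, by simp⟩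
  | succ j ih =>
    obtain ⟨u, v, w, h1, h2, h3⟩ := ih
    have e : itr (i + (j + 1)) = stp (itr (i + j)) := by
      rw [← itr_succ]
      rfl
    refine ⟨u * ((itr (i + j)).2.1 ^ 3 + 7 * (itr (i + j)).2.2 ^ 3),
      v * (-((itr (i + j)).1 ^ 3 + 7 * (itr (i + j)).2.2 ^ 3)),
      w * ((itr (i + j)).1 ^ 3 - (itr (i + j)).2.1 ^ 3), ?_, ?_, ?_⟩
    · rw [e]
      show (itr (i + j)).1 * _ = _
      nth_rewrite 1 [h1]
      ring
    · rw [e]
      show -(itr (i + j)).2.1 * _ = _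
      nth_rewrite 1 [h2]
      ring
    · rw [e]
      show (itr (i + j)).2.2 * _ = _
      nth_rewrite 1 [h3]
      ring

/-- the coordinate on the line -/
def tq (i : ℕ) : ℚ := ((itr i).1 : ℚ) ^ 3 / (7 * ((itr i).2.2 : ℚ) ^ 3)

theorem one_sub_tq (i : ℕ) : 1 - tq i = ((itr i).2.1 : ℚ) ^ 3 / (7 * ((itr i).2.2 : ℚ) ^ 3) := by
  have h := inv_itr i
  have hz : ((itr i).2.2 : ℚ) ≠ 0 := by exact_mod_cast h.z
  have he : ((itr i).1 : ℚ) ^ 3 + ((itr i).2.1 : ℚ) ^ 3 = 7 * ((itr i).2.2 : ℚ) ^ 3 := by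
    exact_mod_cast h.eq
  unfold tq
  rw [eq_div_iff (by positivity), sub_mul, one_mul, div_mul_cancel₀ _ (by positivity)]
  linear_combination -he

theorem hh_tq (i : ℕ) : hh (tq i) = Real.log (siz (itr i)) := by
  have h := inv_itr i
  have h1 : (Finset.univ : Finset (Fin 2)).gcd ![(itr i).1 ^ 3, 7 * (itr i).2.2 ^ 3] = 1 := by
    obtain ⟨u, v, huv⟩ := h.coprime_xz
    set d := (Finset.univ : Finset (Fin 2)).gcd ![(itr i).1 ^ 3, 7 * (itr i).2.2 ^ 3] with hd
    have d0 : d ∣ (itr i).1 ^ 3 := Finset.gcd_dvd (Finset.mem_univ (0 : Fin 2))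
    have d1 : d ∣ 7 * (itr i).2.2 ^ 3 := Finset.gcd_dvd (Finset.mem_univ (1 : Fin 2))
    have hdu : IsUnit d := isUnit_of_dvd_one (by
      rw [← huv]
      exact dvd_add (d0.mul_left u) (d1.mul_left v))
    rw [hd] at hdu ⊢
    rw [← Finset.normalize_gcd, normalize_eq_one.2 hdu]
  have h2 := Rat.logHeight_eq_max_abs_of_gcd_eq_one h1
  unfold hh
  rw [finrank_self, Nat.cast_one, div_one]
  unfold tq
  rw [logHeight₁_div_eq_logHeight]
  have e : (![((itr i).1 : ℚ) ^ 3, 7 * ((itr i).2.2 : ℚ) ^ 3] : Fin 2 → ℚ) =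
      ((↑) : ℤ → ℚ) ∘ ![(itr i).1 ^ 3, 7 * (itr i).2.2 ^ 3] := by
    funext m
    fin_cases m <;> simp
  rw [e, h2]
  congr 2
  apply le_antisymm
  · refine ciSup_le fun m => ?_
    fin_cases m
    · show |(itr i).1 ^ 3| ≤ _
      rw [abs_pow]
      exact le_max_left _ _
    · show |7 * (itr i).2.2 ^ 3| ≤ _
      rw [abs_mul, abs_pow, show |(7 : ℤ)| = 7 by norm_num]
      exact le_max_right _ _
  · refine max_le ?_ ?_
    · have := Finite.le_ciSup (fun m : Fin 2 => |(![(itr i).1 ^ 3, 7 * (itr i).2.2 ^ 3] : Fin 2 → ℤ) m|) 0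
      refine le_trans (le_of_eq ?_) this
      show |(itr i).1| ^ 3 = |(itr i).1 ^ 3|
      rw [abs_pow]
    · have := Finite.le_ciSup (fun m : Fin 2 => |(![(itr i).1 ^ 3, 7 * (itr i).2.2 ^ 3] : Fin 2 → ℤ) m|) 1
      refine le_trans (le_of_eq ?_) this
      show 7 * |(itr i).2.2| ^ 3 = |7 * (itr i).2.2 ^ 3|
      rw [abs_mul, abs_pow, show |(7 : ℤ)| = 7 by norm_num]

theorem siz_pos (i : ℕ) : (8 : ℝ) ^ i ≤ siz (itr i) := by
  have h1 := two_pow_le i
  have h2 : ((2 : ℤ) ^ i) ^ 3 ≤ |(itr i).1| ^ 3 := pow_le_pow_left₀ (by positivity) h1 3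
  have h3 : ((2 : ℤ) ^ i) ^ 3 ≤ siz (itr i) := h2.trans (le_max_left _ _)
  have h4 : ((8 : ℤ)) ^ i ≤ siz (itr i) := by
    refine le_trans (le_of_eq ?_) h3
    rw [← pow_mul, mul_comm, pow_mul]
    norm_num
  exact_mod_cast h4

theorem hh_ge (i : ℕ) : i * Real.log 8 ≤ hh (tq i) := by
  rw [hh_tq, ← Real.log_pow]
  exact Real.log_le_log (by positivity) (siz_pos i)

theorem hh_step (i : ℕ) : hh (tq (i + 1)) ≤ 4 * hh (tq i) + Real.log 27 := by
  rw [hh_tq, hh_tq, itr_succ]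
  have h1 := siz_stp (inv_itr i)
  have h2 : ((siz (stp (itr i)) : ℤ) : ℝ) ≤ 27 * (siz (itr i) : ℝ) ^ 4 := by exact_mod_cast h1
  have h3 := siz_pos i
  have h3' := siz_pos (i + 1)
  rw [itr_succ] at h3'
  have h4 : (0 : ℝ) < siz (itr i) := lt_of_lt_of_le (by positivity) h3
  have h5 : (0 : ℝ) < siz (stp (itr i)) := lt_of_lt_of_le (by positivity) h3'
  have h6 := Real.log_le_log h5 h2
  rw [Real.log_mul (by norm_num) (by positivity), Real.log_pow] at h6
  push_cast at h6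
  linarith

/-- the growth of the heights -/
theorem hh_add_le' (i j : ℕ) : hh (tq (i + j)) ≤ 4 ^ j * (hh (tq i) + 2) := by
  have key : hh (tq (i + j)) + 2 ≤ 4 ^ j * (hh (tq i) + 2) := by
    induction j with
    | zero => simp
    | succ j ih =>
      have h1 := hh_step (i + j)
      have h2 : Real.log 27 ≤ 6 := by
        have := Real.log_le_sub_one_of_pos (show (0 : ℝ) < 27 / 4 / 4 by norm_num)
        have h3 : Real.log 27 = Real.log (27 / 4 / 4) + Real.log 4 + Real.log 4 := by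
          rw [← Real.log_mul (by norm_num) (by norm_num), ← Real.log_mul (by norm_num) (by norm_num)]
          norm_num
        have h4 := Real.log_le_sub_one_of_pos (show (0 : ℝ) < 4 by norm_num)
        have h5 : Real.log 4 = 2 * Real.log 2 := by
          rw [show (4 : ℝ) = 2 ^ 2 by norm_num, Real.log_pow]; push_cast; ring
        have h6 := Real.log_two_lt_d9
        rw [h3, h5]
        linarith
      have e : i + (j + 1) = i + j + 1 := rfl
      rw [e, pow_succ]
      linarith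
  linarith

theorem ln_intCast {K : Type} [Field K] [NumberField K] (n : ℤ) : ln (n : K) = Real.log |(n : ℝ)| := by
  unfold ln
  have h : Algebra.norm ℚ (n : K) = (n : ℚ) ^ finrank ℚ K := by
    have := Algebra.norm_algebraMap (R := ℚ) (S := K) (n : ℚ)
    rwa [map_intCast] at this
  rw [h]
  push_cast
  rw [abs_pow, Real.log_pow, mul_div_assoc, mul_comm, div_mul_cancel₀ _ deg_pos.ne']

/-- **the points** -/
theorem exists_pt (k : Type) [Field k] [NumberField k] (M : ℕ) (hM : M ≠ 0) : ∃ A : ℝ, ∀ i j : ℕ,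
    ∃ (F : Type) (_ : Field F) (_ : NumberField F) (_ : Algebra k F) (a b : Fin 2 → F),
      (∀ m, a m ^ (3 * M) + b m ^ (3 * M) = 1) ∧ a 0 ^ (3 * M) = algebraMap ℚ F (tq i) ∧
      a 1 ^ (3 * M) = algebraMap ℚ F (tq (i + j)) ∧ finrank k F ≤ 3 * M ^ 7 ∧
      IntermediateField.adjoin k (Set.range a ∪ Set.range b) = ⊤ ∧
      ld F ≤ A + (1 - 1 / M) * hh (tq (i + j)) := by
  refine ⟨ld k + (Real.log (3 * M : ℕ) + (1 - 1 / (3 * M : ℕ)) * Real.log 7) + 6 * Real.log M,
    fun i j => ?_⟩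
  obtain ⟨u, v, w, hu, hv, hw⟩ := exists_cof i j
  set X := (itr i).1 with hX
  set Y := (itr i).2.1 with hY
  set Z := (itr i).2.2 with hZ
  have hX' : (itr (i + j)).1 ≠ 0 := (inv_itr (i + j)).x
  have hY' : (itr (i + j)).2.1 ≠ 0 := (inv_itr (i + j)).y
  have hZ' : (itr (i + j)).2.2 ≠ 0 := (inv_itr (i + j)).z
  rw [hu] at hX'
  rw [hv] at hY'
  rw [hw] at hZ'
  obtain ⟨x0, u0⟩ := mul_ne_zero_iff.1 hX'
  obtain ⟨y0, v0⟩ := mul_ne_zero_iff.1 hY'
  obtain ⟨z0, w0⟩ := mul_ne_zero_iff.1 hZ'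
  -- the radicands
  set r : ℕ → ℤ := fun n => match n with
    | 0 => 7 | 1 => X | 2 => Y | 3 => Z | 4 => u | 5 => v | 6 => w | _ => 1 with hr
  set N : ℕ → ℕ := fun n => if n = 0 then 3 * M else M with hN
  have hr0 : ∀ n, r n ≠ 0 := by
    intro n
    match n with
    | 0 => norm_num [hr]
    | 1 => exact x0
    | 2 => exact y0
    | 3 => exact z0
    | 4 => exact u0
    | 5 => exact v0
    | 6 => exact w0
    | (m + 7) => exact one_ne_zero
  have hN0 : ∀ n, N n ≠ 0 := by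
    intro n
    rw [hN]
    simp only
    split_ifs
    · omega
    · exact hM
  obtain ⟨L, iF, iN, iA, c, hc, hfin, hld⟩ := tower_roots 7 N hN0 k (fun n => ((r n : ℤ) : k))
    (fun n => ⟨by exact_mod_cast hr0 n, isIntegral_algebraMap (R := ℤ) (A := k) (x := r n)⟩)
  have hc' : ∀ n < 7, c n ^ N n = ((r n : ℤ) : L) := by
    intro n hn
    rw [hc n hn, map_intCast]
  have c0 : c 0 ^ (3 * M) = 7 := by
    have := hc' 0 (by norm_num)
    simpa [hN, hr] using this
  have c1 : c 1 ^ M = (X : L) := by simpa [hN, hr] using hc' 1 (by norm_num)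
  have c2 : c 2 ^ M = (Y : L) := by simpa [hN, hr] using hc' 2 (by norm_num)
  have c3 : c 3 ^ M = (Z : L) := by simpa [hN, hr] using hc' 3 (by norm_num)
  have c4 : c 4 ^ M = (u : L) := by simpa [hN, hr] using hc' 4 (by norm_num)
  have c5 : c 5 ^ M = (v : L) := by simpa [hN, hr] using hc' 5 (by norm_num)
  have c6 : c 6 ^ M = (w : L) := by simpa [hN, hr] using hc' 6 (by norm_num)
  have cube : ∀ {y z : L}, y ^ M = z → y ^ (3 * M) = z ^ 3 := by
    intro y z h
    rw [mul_comm, pow_mul, h]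
  set a' : Fin 2 → L := ![c 1 / (c 0 * c 3), (c 1 * c 4) / (c 0 * (c 3 * c 6))] with ha'
  set b' : Fin 2 → L := ![c 2 / (c 0 * c 3), (c 2 * c 5) / (c 0 * (c 3 * c 6))] with hb'
  have t0 : a' 0 ^ (3 * M) = algebraMap ℚ L (tq i) := by
    show (c 1 / (c 0 * c 3)) ^ (3 * M) = _
    rw [div_pow, mul_pow, cube c1, c0, cube c3]
    unfold tq
    rw [map_div₀, map_mul, map_pow, map_pow]
    simp only [map_intCast, map_ofNat]
    rfl
  have t0' : b' 0 ^ (3 * M) = algebraMap ℚ L (1 - tq i) := by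
    show (c 2 / (c 0 * c 3)) ^ (3 * M) = _
    rw [div_pow, mul_pow, cube c2, c0, cube c3, one_sub_tq]
    rw [map_div₀, map_mul, map_pow, map_pow]
    simp only [map_intCast, map_ofNat]
    rfl
  have t1 : a' 1 ^ (3 * M) = algebraMap ℚ L (tq (i + j)) := by
    show (c 1 * c 4 / (c 0 * (c 3 * c 6))) ^ (3 * M) = _
    rw [div_pow, mul_pow, mul_pow, mul_pow, cube c1, c0, cube c3, cube c4, cube c6]
    unfold tq
    rw [map_div₀, map_mul, map_pow, map_pow, hu, hw]
    simp only [map_intCast, map_ofNat]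
    push_cast
    ring
  have t1' : b' 1 ^ (3 * M) = algebraMap ℚ L (1 - tq (i + j)) := by
    show (c 2 * c 5 / (c 0 * (c 3 * c 6))) ^ (3 * M) = _
    rw [div_pow, mul_pow, mul_pow, mul_pow, cube c2, c0, cube c3, cube c5, cube c6, one_sub_tq]
    rw [map_div₀, map_mul, map_pow, map_pow, hv, hw]
    simp only [map_intCast, map_ofNat]
    push_cast
    ring
  have hfdL : FiniteDimensional k L := inferInstance
  set S : Set L := Set.range a' ∪ Set.range b' with hS
  set F := IntermediateField.adjoin k S with hF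
  have hNFF : NumberField F := NumberField.of_module_finite k F
  have haF : ∀ m, a' m ∈ F := fun m => IntermediateField.subset_adjoin k S (Or.inl ⟨m, rfl⟩)
  have hbF : ∀ m, b' m ∈ F := fun m => IntermediateField.subset_adjoin k S (Or.inr ⟨m, rfl⟩)
  refine ⟨F, inferInstance, hNFF, inferInstance, fun m => ⟨a' m, haF m⟩, fun m => ⟨b' m, hbF m⟩,
    ?_, ?_, ?_, ?_, ?_, ?_⟩
  · intro m
    apply (algebraMap F L).injective
    rw [map_add, map_pow, map_pow, map_one]
    show a' m ^ (3 * M) + b' m ^ (3 * M) = 1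
    fin_cases m
    · show a' 0 ^ (3 * M) + b' 0 ^ (3 * M) = 1
      rw [t0, t0', ← map_add]
      simp
    · show a' 1 ^ (3 * M) + b' 1 ^ (3 * M) = 1
      rw [t1, t1', ← map_add]
      simp
  · apply (algebraMap F L).injective
    rw [map_pow]
    show a' 0 ^ (3 * M) = _
    rw [t0]
    simp
  · apply (algebraMap F L).injective
    rw [map_pow]
    show a' 1 ^ (3 * M) = _
    rw [t1]
    simp
  · calc finrank k F ≤ finrank k L :=
          Submodule.finrank_le (Subalgebra.toSubmodule F.toSubalgebra)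
      _ ≤ ∏ n ∈ Finset.range 7, N n := hfin
      _ = 3 * M ^ 7 := by
        simp only [Finset.prod_range_succ, Finset.prod_range_zero, hN]
        norm_num
        ring
  · refine adjoin_self_top S _ ?_
    ext z
    constructor
    · rintro ⟨w, hw, rfl⟩
      rcases hw with ⟨m, rfl⟩ | ⟨m, rfl⟩
      · exact Or.inl ⟨m, rfl⟩
      · exact Or.inr ⟨m, rfl⟩
    · rintro (⟨m, rfl⟩ | ⟨m, rfl⟩)
      · exact ⟨⟨a' m, haF m⟩, Or.inl ⟨m, rfl⟩, rfl⟩
      · exact ⟨⟨b' m, hbF m⟩, Or.inr ⟨m, rfl⟩, rfl⟩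
  · refine (ld_mono F L).trans (hld.trans ?_)
    have hM1 : (1 : ℝ) ≤ M := by exact_mod_cast Nat.one_le_iff_ne_zero.2 hM
    have hq : 0 ≤ 1 - 1 / (M : ℝ) := by
      rw [sub_nonneg, div_le_one (by linarith)]
      exact hM1
    have l1 : Real.log |(X : ℝ)| + Real.log |(Y : ℝ)| + Real.log |(Z : ℝ)| + Real.log |(u : ℝ)| +
        Real.log |(v : ℝ)| + Real.log |(w : ℝ)| ≤ hh (tq (i + j)) := by
      have k1 := prod_le (inv_itr (i + j))
      rw [hh_tq]
      have k2 : |((X * u : ℤ) : ℝ) * ((Y * v : ℤ) : ℝ) * ((Z * w : ℤ) : ℝ)| ≤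
          (siz (itr (i + j)) : ℝ) := by
        rw [hu, hv, hw] at k1
        exact_mod_cast k1
      have px : |(X : ℝ)| ≠ 0 := abs_ne_zero.2 (by exact_mod_cast x0)
      have py : |(Y : ℝ)| ≠ 0 := abs_ne_zero.2 (by exact_mod_cast y0)
      have pz : |(Z : ℝ)| ≠ 0 := abs_ne_zero.2 (by exact_mod_cast z0)
      have pu : |(u : ℝ)| ≠ 0 := abs_ne_zero.2 (by exact_mod_cast u0)
      have pv : |(v : ℝ)| ≠ 0 := abs_ne_zero.2 (by exact_mod_cast v0)
      have pw : |(w : ℝ)| ≠ 0 := abs_ne_zero.2 (by exact_mod_cast w0)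
      have k3 : |((X * u : ℤ) : ℝ) * ((Y * v : ℤ) : ℝ) * ((Z * w : ℤ) : ℝ)| =
          |(X : ℝ)| * |(u : ℝ)| * (|(Y : ℝ)| * |(v : ℝ)|) * (|(Z : ℝ)| * |(w : ℝ)|) := by
        push_cast
        rw [abs_mul, abs_mul, abs_mul, abs_mul, abs_mul]
      rw [k3] at k2
      have k4 := Real.log_le_log (by positivity) k2
      rw [Real.log_mul (by positivity) (by positivity), Real.log_mul (by positivity) (by positivity),
        Real.log_mul px pu, Real.log_mul py pv, Real.log_mul pz pw] at k4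
      linarith
    have l2 := mul_le_mul_of_nonneg_left l1 hq
    simp only [Finset.sum_range_succ, Finset.sum_range_zero, hN, hr, ln_intCast]
    norm_num
    norm_num at l2
    linarith

end Pool.Agent.L0h52.VZ
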