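import Pool.Agent.L0h52.VZ.Div

/-! Polynomials which vanish at the points of the sequence. -/

set_option autoImplicit false

namespace Pool.Agent.L0h52.VZ

open Polynomial Module

theorem two_tq (i : ℕ) : 2 * tq i - 1 ≠ 0 ∧
    tq (i + 1) * (2 * tq i - 1) ^ 3 = tq i * (2 - tq i) ^ 3 := by
  have h := inv_itr i
  have h' := inv_itr (i + 1)
  have hz : ((itr i).2.2 : ℚ) ≠ 0 := by exact_mod_cast h.z
  have hz' : ((itr (i + 1)).2.2 : ℚ) ≠ 0 := by exact_mod_cast h'.z
  have he : ((itr i).1 : ℚ) ^ 3 + ((itr i).2.1 : ℚ) ^ 3 = 7 * ((itr i).2.2 : ℚ) ^ 3 := by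
    exact_mod_cast h.eq
  have hs1 : ((itr (i + 1)).1 : ℚ) = ((itr i).1 : ℚ) * (((itr i).2.1 : ℚ) ^ 3 +
      7 * ((itr i).2.2 : ℚ) ^ 3) := by
    rw [itr_succ]
    unfold stp
    push_cast
    ring
  have hs3 : ((itr (i + 1)).2.2 : ℚ) = ((itr i).2.2 : ℚ) * (((itr i).1 : ℚ) ^ 3 -
      ((itr i).2.1 : ℚ) ^ 3) := by
    rw [itr_succ]
    unfold stp
    push_cast
    ring
  set X : ℚ := ((itr i).1 : ℚ)
  set Y : ℚ := ((itr i).2.1 : ℚ)
  set Z : ℚ := ((itr i).2.2 : ℚ)
  have hxy : X ^ 3 - Y ^ 3 ≠ 0 := by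
    intro h0
    rw [hs3, h0, mul_zero] at hz'
    exact hz' rfl
  have e0 : tq i = X ^ 3 / (7 * Z ^ 3) := rfl
  have e1 : 2 * tq i - 1 = (X ^ 3 - Y ^ 3) / (7 * Z ^ 3) := by
    rw [eq_div_iff (by positivity), e0, sub_mul, mul_assoc, div_mul_cancel₀ _ (by positivity)]
    linear_combination he
  have e2 : 2 - tq i = (Y ^ 3 + 7 * Z ^ 3) / (7 * Z ^ 3) := by
    rw [eq_div_iff (by positivity), e0, sub_mul, div_mul_cancel₀ _ (by positivity)]
    linear_combination -he
  refine ⟨by rw [e1]; exact div_ne_zero hxy (by positivity), ?_⟩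
  rw [e1, e2]
  unfold tq
  rw [hs1, hs3]
  change (X * (Y ^ 3 + 7 * Z ^ 3)) ^ 3 / (7 * (Z * (X ^ 3 - Y ^ 3)) ^ 3) * _ = X ^ 3 / (7 * Z ^ 3) * _
  field_simp

section rel
variable (k : Type) [Field k] [CharZero k]

/-- the points in `k` -/
noncomputable def tk (i : ℕ) : k := ((tq i : ℚ) : k)

theorem rel (i j : ℕ) : eval (tk k i) (pq k j).2 ≠ 0 ∧
    eval (tk k i) (pq k j).1 = tk k (i + j) * eval (tk k i) (pq k j).2 := by
  induction j with
  | zero => simp [pq]
  | succ j ih =>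
    obtain ⟨h1, h2⟩ := ih
    obtain ⟨h3, h4⟩ := two_tq (i + j)
    have h3' : 2 * tk k (i + j) - 1 ≠ 0 := by
      unfold tk
      exact_mod_cast h3
    have h4' : tk k (i + j + 1) * (2 * tk k (i + j) - 1) ^ 3 =
        tk k (i + j) * (2 - tk k (i + j)) ^ 3 := by
      unfold tk
      exact_mod_cast congrArg (fun z : ℚ => (z : k)) h4
    have d1 : (pq k (j + 1)).1 = (pq k j).1 * (2 * (pq k j).2 - (pq k j).1) ^ 3 := rfl
    have d2 : (pq k (j + 1)).2 = (pq k j).2 * (2 * (pq k j).1 - (pq k j).2) ^ 3 := rfl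
    have e2 : eval (tk k i) (pq k (j + 1)).2 = eval (tk k i) (pq k j).2 ^ 4 *
        (2 * tk k (i + j) - 1) ^ 3 := by
      rw [d2]
      simp only [eval_mul, eval_pow, eval_sub, eval_ofNat, h2]
      ring
    have e1 : eval (tk k i) (pq k (j + 1)).1 = eval (tk k i) (pq k j).2 ^ 4 *
        (tk k (i + j) * (2 - tk k (i + j)) ^ 3) := by
      rw [d1]
      simp only [eval_mul, eval_pow, eval_sub, eval_ofNat, h2]
      ring
    refine ⟨?_, ?_⟩
    · rw [e2]
      exact mul_ne_zero (pow_ne_zero _ h1) (pow_ne_zero _ h3')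
    · rw [e1, e2, ← h4', show i + (j + 1) = i + j + 1 from rfl]
      ring

/-- homogenised composition -/
noncomputable def hc (p q : k[X]) (P : k[X][X]) : k[X] :=
  ∑ n ∈ Finset.range (P.natDegree + 1), P.coeff n * p ^ n * q ^ (P.natDegree - n)

theorem eval_hc (p q : k[X]) (P : k[X][X]) (x y : k) (h : eval x p = y * eval x q) :
    eval x (hc k p q P) = eval x q ^ P.natDegree * P.evalEval x y := by
  have h1 : P.evalEval x y = ∑ n ∈ Finset.range (P.natDegree + 1), eval x (P.coeff n) * y ^ n := by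
    unfold evalEval
    rw [eval_eq_sum_range (p := P), eval_finsetSum]
    refine Finset.sum_congr rfl fun n _ => ?_
    simp
  rw [h1, Finset.mul_sum]
  unfold hc
  rw [eval_finsetSum]
  refine Finset.sum_congr rfl fun n hn => ?_
  have hn' : n ≤ P.natDegree := by
    have := Finset.mem_range.1 hn
    omega
  rw [eval_mul, eval_mul, eval_pow, eval_pow, h]
  have : eval x q ^ P.natDegree = eval x q ^ n * eval x q ^ (P.natDegree - n) := by
    rw [← pow_add, Nat.add_sub_cancel' hn']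
  rw [this]
  ring

theorem gr_dvd (j : ℕ) (P : k[X][X]) (h : hc k (pq k j).1 (pq k j).2 P = 0) : gr k j ∣ P := by
  obtain ⟨-, -, hq, -⟩ := pq_deg k j
  set p := (pq k j).1 with hp
  set q := (pq k j).2 with hq'
  let K := FractionRing k[X]
  have hinj : Function.Injective (algebraMap k[X] K) := IsFractionRing.injective _ _
  have hqK : algebraMap k[X] K q ≠ 0 := (map_ne_zero_iff _ hinj).2 hq
  refine (gr_primitive k j).dvd_of_fraction_map_dvd_fraction_map (K := K) ?_
  have e1 : (gr k j).map (algebraMap k[X] K) =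
      C (algebraMap k[X] K q) * (X - C (algebraMap k[X] K p / algebraMap k[X] K q)) := by
    unfold gr
    rw [Polynomial.map_sub, Polynomial.map_mul, map_C, map_C, map_X, mul_sub, ← C_mul,
      mul_div_cancel₀ _ hqK]
  rw [e1]
  have hu : IsUnit (C (algebraMap k[X] K q)) := isUnit_C.2 (isUnit_iff_ne_zero.2 hqK)
  rw [hu.mul_left_dvd, dvd_iff_isRoot, IsRoot.def, eval_map, eval₂_eq_sum_range]
  have e2 : algebraMap k[X] K q ^ P.natDegree * ∑ n ∈ Finset.range (P.natDegree + 1),
      algebraMap k[X] K (P.coeff n) * (algebraMap k[X] K p / algebraMap k[X] K q) ^ n =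
      algebraMap k[X] K (hc k p q P) := by
    unfold hc
    rw [map_sum, Finset.mul_sum]
    refine Finset.sum_congr rfl fun n hn => ?_
    have hn' : n ≤ P.natDegree := by
      have := Finset.mem_range.1 hn
      omega
    have : algebraMap k[X] K q ^ P.natDegree =
        algebraMap k[X] K q ^ n * algebraMap k[X] K q ^ (P.natDegree - n) := by
      rw [← pow_add, Nat.add_sub_cancel' hn']
    rw [this, map_mul, map_mul, map_pow, map_pow, div_pow]
    have h5 : algebraMap k[X] K q ^ n ≠ 0 := pow_ne_zero _ hqK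
    rw [mul_comm (algebraMap k[X] K q ^ n), mul_assoc, mul_left_comm (algebraMap k[X] K q ^ n),
      mul_div_cancel₀ _ h5]
    ring
  rw [h, map_zero] at e2
  exact (mul_eq_zero.1 e2).resolve_left (pow_ne_zero _ hqK)

theorem tk_inj : ∃ f : ℕ → ℕ, StrictMono f ∧ Function.Injective (fun i => tk k (f i)) := by
  -- heights grow
  have hunb : ∀ i0 : ℕ, ∃ i1, i0 < i1 ∧ ∀ i ≤ i0, ∀ i' ≥ i1, tq i ≠ tq i' := by
    intro i0
    obtain ⟨B, hB⟩ : ∃ B : ℝ, ∀ i ≤ i0, Pool.Agent.Y733.VR.hh (tq i) ≤ B := by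
      refine ⟨∑ i ∈ Finset.range (i0 + 1), |Pool.Agent.Y733.VR.hh (tq i)|, fun i hi => ?_⟩
      exact (le_abs_self _).trans (Finset.single_le_sum
        (f := fun i => |Pool.Agent.Y733.VR.hh (tq i)|) (fun i _ => abs_nonneg _)
        (Finset.mem_range.2 (by omega)))
    obtain ⟨n, hn⟩ := exists_nat_gt B
    refine ⟨max n (i0 + 1), by omega, fun i hi i' hi' he => ?_⟩
    have h1 := hh_ge i'
    have h2 := hB i hi
    rw [he] at h2
    have h3 : (1 : ℝ) ≤ Real.log 8 := by
      have := Real.add_one_le_exp (1 : ℝ)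
      rw [Real.le_log_iff_exp_le (by norm_num)]
      have := Real.exp_one_lt_d9
      linarith
    have h4 : (n : ℝ) ≤ i' := by
      have : n ≤ i' := le_trans (le_max_left _ _) hi'
      exact_mod_cast this
    have h5 : (i' : ℝ) * 1 ≤ i' * Real.log 8 := mul_le_mul_of_nonneg_left h3 (Nat.cast_nonneg _)
    linarith
  choose g hg1 hg2 using hunb
  have hmono : StrictMono (fun n => g^[n] 0) := strictMono_nat_of_lt_succ fun n => by
    rw [Function.iterate_succ_apply']
    exact hg1 _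
  refine ⟨fun n => g^[n] 0, hmono, ?_⟩
  have key : ∀ a b : ℕ, a < b → tk k (g^[a] 0) ≠ tk k (g^[b] 0) := by
    intro a b hab he
    have h1 : tq (g^[a] 0) = tq (g^[b] 0) := by
      unfold tk at he
      exact_mod_cast he
    refine hg2 (g^[a] 0) _ le_rfl (g^[b] 0) ?_ h1
    have h2 : g^[a + 1] 0 ≤ g^[b] 0 := hmono.monotone (show a + 1 ≤ b by omega)
    rwa [Function.iterate_succ_apply'] at h2
  intro a b hab
  rcases lt_trichotomy a b with h | h | h
  · exact absurd hab (key a b h)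
  · exact h
  · exact absurd hab.symm (key b a h)

/-- a polynomial which vanishes at all far points of the graph is divisible by its equation -/
theorem gr_dvd_of_zeros (i0 j : ℕ) (P : k[X][X])
    (h : ∀ i ≥ i0, P.evalEval (tk k i) (tk k (i + j)) = 0) : gr k j ∣ P := by
  refine gr_dvd k j P ?_
  obtain ⟨f, hf1, hf2⟩ := tk_inj k
  refine Polynomial.eq_zero_of_infinite_isRoot _ ?_
  refine Set.Infinite.mono (s := Set.range fun i => tk k (f (i + i0))) ?_
    (Set.infinite_range_of_injective fun a b hab => ?_)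
  · rintro _ ⟨i, rfl⟩
    show IsRoot _ _
    have hi : i0 ≤ f (i + i0) := le_trans (Nat.le_add_left _ _) (hf1.id_le _)
    rw [IsRoot.def, eval_hc k _ _ P _ (tk k (f (i + i0) + j)) (rel k _ _).2, h _ hi, mul_zero]
  · have := hf2 hab
    omega

theorem gr_evalEval (i j j' : ℕ) (h : (gr k j).evalEval (tk k i) (tk k (i + j')) = 0) :
    tk k (i + j') = tk k (i + j) := by
  obtain ⟨h1, h2⟩ := rel k i j
  unfold gr at h
  rw [evalEval_sub, evalEval_mul, evalEval_C, evalEval_C, evalEval_X, h2, mul_comm, sub_eq_zero] at h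
  exact mul_right_cancel₀ h1 h

end rel

end Pool.Agent.L0h52.VZ
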