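import Mathlib

/-! The tangent sequence on the cubic curve `x³ + y³ = 7 z³`. -/

set_option autoImplicit false

namespace Pool.Agent.L0h52.VZ

/-- the third intersection point of the tangent -/
def stp (p : ℤ × ℤ × ℤ) : ℤ × ℤ × ℤ :=
  (p.1 * (p.2.1 ^ 3 + 7 * p.2.2 ^ 3), -p.2.1 * (p.1 ^ 3 + 7 * p.2.2 ^ 3),
    p.2.2 * (p.1 ^ 3 - p.2.1 ^ 3))

structure Inv (p : ℤ × ℤ × ℤ) : Prop where
  eq : p.1 ^ 3 + p.2.1 ^ 3 = 7 * p.2.2 ^ 3
  cop : IsCoprime p.1 p.2.1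
  three : 3 ∣ p.2.2
  two : 2 ∣ p.1
  z : p.2.2 ≠ 0
  x : p.1 ≠ 0

theorem Inv.odd {p : ℤ × ℤ × ℤ} (h : Inv p) : Odd p.2.1 := by
  rcases Int.even_or_odd p.2.1 with he | ho
  · exfalso
    obtain ⟨a, b, hab⟩ := h.cop
    obtain ⟨c, hc⟩ := h.two
    obtain ⟨e, he⟩ := he
    have : (2 : ℤ) ∣ 1 := ⟨a * c + b * e, by rw [← hab, hc, he]; ring⟩
    omega
  · exact ho

theorem Inv.y {p : ℤ × ℤ × ℤ} (h : Inv p) : p.2.1 ≠ 0 := by
  intro h0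
  have := h.odd
  rw [h0] at this
  exact absurd this (by decide)

theorem Inv.cop3 {p : ℤ × ℤ × ℤ} (h : Inv p) : IsCoprime p.2.1 3 := by
  rw [isCoprime_comm]
  refine (Int.prime_three.coprime_iff_not_dvd).2 fun h3 => ?_
  have h4 : (3 : ℤ) ∣ p.1 ^ 3 := by
    obtain ⟨a, ha⟩ := h.three
    obtain ⟨b, hb⟩ := h3
    refine ⟨7 * 9 * a ^ 3 - 9 * b ^ 3, ?_⟩
    have := h.eq
    rw [ha, hb] at this
    linear_combination this
  have h5 := Int.prime_three.dvd_of_dvd_pow h4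
  have h6 : (3 : ℤ) ∣ 1 := by
    obtain ⟨a, b, hab⟩ := h.cop
    rw [← hab]
    exact dvd_add (h5.mul_left a) (h3.mul_left b)
  omega

theorem Inv.stp {p : ℤ × ℤ × ℤ} (h : Inv p) : Inv (stp p) := by
  obtain ⟨X, Y, Z⟩ := p
  have hY := h.odd
  have hc3 := h.cop3
  have hy := h.y
  obtain ⟨heq, hcop, h3, h2, hz, hx⟩ := h
  simp only at *
  have e1 : Y ^ 3 + 7 * Z ^ 3 = X ^ 3 + 2 * Y ^ 3 := by linear_combination -heq
  have e2 : X ^ 3 + 7 * Z ^ 3 = 2 * X ^ 3 + Y ^ 3 := by linear_combination -heq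
  -- coprimality
  have c1 : IsCoprime X (2 * X ^ 3 + Y ^ 3) := by
    have : IsCoprime X (Y ^ 3 + X * (2 * X ^ 2)) := (IsCoprime.add_mul_left_right_iff).2 hcop.pow_right
    rwa [show Y ^ 3 + X * (2 * X ^ 2) = 2 * X ^ 3 + Y ^ 3 by ring] at this
  have c2 : IsCoprime (X ^ 3 + 2 * Y ^ 3) Y := by
    have : IsCoprime (X ^ 3 + Y * (2 * Y ^ 2)) Y := (IsCoprime.add_mul_left_left_iff).2 hcop.pow_left
    rwa [show X ^ 3 + Y * (2 * Y ^ 2) = X ^ 3 + 2 * Y ^ 3 by ring] at this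
  have c3 : IsCoprime (X ^ 3 + 2 * Y ^ 3) 3 := by
    obtain ⟨a, ha⟩ := h3
    have h5 : IsCoprime (Y ^ 3 + 3 * (7 * 9 * a ^ 3)) 3 :=
      (IsCoprime.add_mul_left_left_iff).2 hc3.pow_left
    have h6 : X ^ 3 + 2 * Y ^ 3 = Y ^ 3 + 3 * (7 * 9 * a ^ 3) := by
      rw [ha] at heq
      linear_combination heq
    rw [h6]
    exact h5
  have c4 : IsCoprime (X ^ 3 + 2 * Y ^ 3) (2 * X ^ 3 + Y ^ 3) := by
    -- `2 (X³ + 2 Y³) - (2 X³ + Y³) = 3 Y³`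
    have h5 : IsCoprime (X ^ 3 + 2 * Y ^ 3) (3 * Y ^ 3) := c3.mul_right c2.pow_right
    have h6 : IsCoprime (X ^ 3 + 2 * Y ^ 3) (-(3 * Y ^ 3) + (X ^ 3 + 2 * Y ^ 3) * 2) :=
      (IsCoprime.add_mul_left_right_iff).2 h5.neg_right
    rwa [show -(3 * Y ^ 3) + (X ^ 3 + 2 * Y ^ 3) * 2 = 2 * X ^ 3 + Y ^ 3 by ring] at h6
  have hodd : Odd (Y ^ 3) := hY.pow
  obtain ⟨a, ha⟩ := h2
  obtain ⟨b, hb⟩ := hodd
  refine ⟨?_, ?_, ?_, ?_, ?_, ?_⟩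
  · unfold VZ.stp
    simp only
    have : 7 * (Z * (X ^ 3 - Y ^ 3)) ^ 3 = (X ^ 3 + Y ^ 3) * (X ^ 3 - Y ^ 3) ^ 3 := by
      rw [heq]; ring
    rw [this, e1, e2]
    ring
  · unfold VZ.stp
    simp only
    rw [e1, e2, neg_mul]
    exact ((hcop.mul_right c1).mul_left (c2.mul_right c4)).neg_right
  · unfold VZ.stp
    exact h3.mul_right _
  · unfold VZ.stp
    exact (show (2 : ℤ) ∣ X from ⟨a, ha⟩).mul_right _
  · unfold VZ.stp
    simp only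
    refine mul_ne_zero hz ?_
    rw [hb, ha]
    intro h0
    ring_nf at h0
    omega
  · unfold VZ.stp
    simp only
    refine mul_ne_zero hx ?_
    rw [e1, hb, ha]
    intro h0
    ring_nf at h0
    omega

/-- the sequence -/
def itr (i : ℕ) : ℤ × ℤ × ℤ := stp^[i] (4, 5, 3)

theorem itr_succ (i : ℕ) : itr (i + 1) = stp (itr i) := Function.iterate_succ_apply' _ _ _

theorem inv_itr (i : ℕ) : Inv (itr i) := by
  induction i with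
  | zero =>
    refine ⟨by norm_num [itr], ?_, by norm_num [itr], by norm_num [itr], by norm_num [itr],
      by norm_num [itr]⟩
    show IsCoprime (4 : ℤ) 5
    exact ⟨-1, 1, by norm_num⟩
  | succ i ih =>
    rw [itr_succ]
    exact ih.stp

theorem Inv.two_le {p : ℤ × ℤ × ℤ} (h : Inv p) : 2 ≤ |p.2.1 ^ 3 + 7 * p.2.2 ^ 3| := by
  have hodd : Odd (p.2.1 ^ 3) := h.odd.pow
  obtain ⟨a, ha⟩ := h.two
  obtain ⟨b, hb⟩ := hodd
  have e1 : p.2.1 ^ 3 + 7 * p.2.2 ^ 3 = 2 * (4 * a ^ 3 + 2 * b + 1) := by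
    have := h.eq
    rw [ha] at this
    linear_combination -this + 2 * hb
  rw [e1, abs_mul, abs_two]
  have : 1 ≤ |4 * a ^ 3 + 2 * b + 1| := by
    exact Int.one_le_abs (by omega)
  linarith

theorem two_pow_le (i : ℕ) : 2 ^ i ≤ |(itr i).1| := by
  induction i with
  | zero => norm_num [itr]
  | succ i ih =>
    rw [itr_succ]
    have h1 := (inv_itr i).two_le
    show 2 ^ (i + 1) ≤ |(itr i).1 * ((itr i).2.1 ^ 3 + 7 * (itr i).2.2 ^ 3)|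
    rw [abs_mul, pow_succ]
    exact mul_le_mul ih h1 (by norm_num) (abs_nonneg _)

/-- the size of a point -/
def siz (p : ℤ × ℤ × ℤ) : ℤ := max (|p.1| ^ 3) (7 * |p.2.2| ^ 3)

theorem siz_y {p : ℤ × ℤ × ℤ} (h : Inv p) : |p.2.1| ^ 3 ≤ 2 * siz p := by
  have h1 : |p.2.1| ^ 3 = |7 * p.2.2 ^ 3 - p.1 ^ 3| := by
    rw [← abs_pow]
    congr 1
    linear_combination h.eq
  rw [h1]
  refine (abs_sub _ _).trans ?_
  rw [abs_mul, abs_pow, abs_pow, show |(7 : ℤ)| = 7 by norm_num]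
  unfold siz
  have := le_max_left (|p.1| ^ 3) (7 * |p.2.2| ^ 3)
  have := le_max_right (|p.1| ^ 3) (7 * |p.2.2| ^ 3)
  omega

theorem siz_stp {p : ℤ × ℤ × ℤ} (h : Inv p) : siz (stp p) ≤ 27 * siz p ^ 4 := by
  have hy := siz_y h
  have hx : |p.1| ^ 3 ≤ siz p := le_max_left _ _
  have hz : 7 * |p.2.2| ^ 3 ≤ siz p := le_max_right _ _
  have h0 : 0 ≤ siz p := (pow_nonneg (abs_nonneg _) 3).trans hx
  have a1 : |p.2.1 ^ 3 + 7 * p.2.2 ^ 3| ≤ 3 * siz p := by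
    refine (abs_add_le _ _).trans ?_
    rw [abs_mul, abs_pow, abs_pow, show |(7 : ℤ)| = 7 by norm_num]
    linarith
  have a2 : |p.1 ^ 3 - p.2.1 ^ 3| ≤ 3 * siz p := by
    refine (abs_sub _ _).trans ?_
    rw [abs_pow, abs_pow]
    linarith
  refine max_le ?_ ?_
  · show |p.1 * (p.2.1 ^ 3 + 7 * p.2.2 ^ 3)| ^ 3 ≤ _
    rw [abs_mul, mul_pow]
    calc |p.1| ^ 3 * |p.2.1 ^ 3 + 7 * p.2.2 ^ 3| ^ 3 ≤ siz p * (3 * siz p) ^ 3 := by
          gcongr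
      _ = _ := by ring
  · show 7 * |p.2.2 * (p.1 ^ 3 - p.2.1 ^ 3)| ^ 3 ≤ _
    rw [abs_mul, mul_pow, ← mul_assoc]
    calc 7 * |p.2.2| ^ 3 * |p.1 ^ 3 - p.2.1 ^ 3| ^ 3 ≤ siz p * (3 * siz p) ^ 3 := by
          gcongr
      _ = _ := by ring

/-- the product of the coordinates -/
theorem prod_le {p : ℤ × ℤ × ℤ} (h : Inv p) : |p.1 * p.2.1 * p.2.2| ≤ siz p := by
  have hy := siz_y h
  have hx : |p.1| ^ 3 ≤ siz p := le_max_left _ _
  have hz : 7 * |p.2.2| ^ 3 ≤ siz p := le_max_right _ _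
  have h0 : 0 ≤ siz p := (pow_nonneg (abs_nonneg _) 3).trans hx
  have h1 : |p.1 * p.2.1 * p.2.2| ^ 3 ≤ siz p ^ 3 := by
    rw [abs_mul, abs_mul, mul_pow, mul_pow]
    have hz' : 2 * |p.2.2| ^ 3 ≤ siz p := by
      have := pow_nonneg (abs_nonneg p.2.2) 3
      linarith
    calc |p.1| ^ 3 * |p.2.1| ^ 3 * |p.2.2| ^ 3 ≤ siz p * (2 * siz p) * |p.2.2| ^ 3 := by
          gcongr
      _ = siz p * siz p * (2 * |p.2.2| ^ 3) := by ring
      _ ≤ siz p * siz p * siz p := by gcongr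
      _ = _ := by ring
  exact (pow_le_pow_iff_left₀ (abs_nonneg _) h0 (by norm_num)).1 h1

theorem Inv.coprime_xz {p : ℤ × ℤ × ℤ} (h : Inv p) : IsCoprime (p.1 ^ 3) (7 * p.2.2 ^ 3) := by
  have h1 : IsCoprime p.1 (p.2.1 ^ 3 + p.1 * p.1 ^ 2) :=
    (IsCoprime.add_mul_left_right_iff).2 h.cop.pow_right
  have h2 : p.2.1 ^ 3 + p.1 * p.1 ^ 2 = 7 * p.2.2 ^ 3 := by linear_combination h.eq
  rw [h2] at h1
  exact h1.pow_left

end Pool.Agent.L0h52.VZ
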